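import Pool.Agent.Y237.NZ.Lau
import Pool.Agent.Y713.SE.Coh

/-!
# Project NZ (helper164): the Galois group of the field of Laurent series and `ℓ`-th roots of unity
-/

set_option autoImplicit false
set_option linter.all false

open Polynomial

namespace Pool.Agent.Y237.NZ

/-- a locally constant function on `Gal(Ω/F)` is locally constant on `Gal(M/L)` -/
theorem lc_res {F Ω L M : Type} [Field F] [Field Ω] [Field L] [Field M] [Algebra F Ω]
    [IsGalois F Ω] [Algebra L M] [IsGalois L M] (ι : Ω →+* M)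
    (res : (M ≃ₐ[L] M) → (Ω ≃ₐ[F] Ω)) (hres : ∀ t x, t (ι x) = ι (res t x)) {X : Type}
    {z : (Ω ≃ₐ[F] Ω) → X} (hz : IsLocallyConstant z) :
    IsLocallyConstant (fun t => z (res t)) := by
  rw [IsLocallyConstant.iff_exists_open]
  intro t0
  have hV : {ρ : Ω ≃ₐ[F] Ω | z (res t0 * ρ) = z (res t0)} ∈ nhds (1 : Ω ≃ₐ[F] Ω) := by
    have h1 : IsOpen {ρ : Ω ≃ₐ[F] Ω | z (res t0 * ρ) = z (res t0)} :=
      (hz.isOpen_fiber (z (res t0))).preimage (continuous_const_mul (res t0))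
    refine h1.mem_nhds ?_
    show z (res t0 * 1) = z (res t0)
    rw [mul_one]
  rw [krullTopology_mem_nhds_one_iff] at hV
  obtain ⟨E, hE, hsub⟩ := hV
  obtain ⟨α, hα⟩ := Field.exists_primitive_element F E
  have hE' : E = IntermediateField.adjoin F {(α : Ω)} := by
    refine Eq.trans ?_ (IntermediateField.lift_adjoin_simple F E α)
    refine Eq.trans (IntermediateField.lift_top F E).symm ?_
    exact congrArg (fun G => IntermediateField.lift G) hα.symm
  have hle : MulAction.stabilizer (Ω ≃ₐ[F] Ω) (α : Ω) ≤ E.fixingSubgroup := by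
    rw [← IntermediateField.le_iff_le]
    refine hE'.le.trans ?_
    rw [IntermediateField.adjoin_simple_le_iff]
    rintro ⟨σ, hσ⟩
    exact hσ
  refine ⟨(fun t : M ≃ₐ[L] M => t (ι α)) ⁻¹' {t0 (ι α)},
    (Pool.Agent.Y713.SE.locConst_apply (K := L) (ι (α : Ω))).isOpen_fiber _, rfl, ?_⟩
  intro t ht
  have h1 : t (ι α) = t0 (ι α) := ht
  rw [hres, hres] at h1
  have h2 : res t (α : Ω) = res t0 α := ι.injective h1
  have h3 : ((res t0)⁻¹ * res t) (α : Ω) = α := by
    rw [AlgEquiv.mul_apply, h2]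
    exact (res t0).symm_apply_apply _
  have h4 : (res t0)⁻¹ * res t ∈ E.fixingSubgroup := hle h3
  have h6 := hsub h4
  have h7 : z (res t0 * ((res t0)⁻¹ * res t)) = z (res t0) := h6
  rwa [mul_inv_cancel_left] at h7

section lau

variable {k' : Type} [Field k'] [IsAlgClosed k']

theorem zpow_single (n : ℤ) : (HahnSeries.single (1 : ℤ) (1 : k')) ^ n =
    (HahnSeries.single n (1 : k') : LaurentSeries k') := by
  rcases n with m | m
  · simp [HahnSeries.single_pow]
  · rw [Int.negSucc_eq, zpow_neg, inv_eq_iff_eq_inv, ← Int.natCast_succ, zpow_natCast, HahnSeries.single_pow, HahnSeries.inv_single]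
    simp

/-- the `ℓ`-th roots of elements of `L` whose order is divisible by `ℓ` lie in `L` -/
theorem root_in {ℓ : ℕ} (hℓ : (ℓ : k') ≠ 0) {M : Type} [Field M] [Algebra (LaurentSeries k') M]
    {ζ : LaurentSeries k'} (hζ : IsPrimitiveRoot ζ ℓ) (hp : 0 < ℓ) {x : LaurentSeries k'}
    (hx : x ≠ 0) (ho : ((x.order : ℤ) : ZMod ℓ) = 0) {y : M}
    (hy : y ^ ℓ = algebraMap (LaurentSeries k') M x) :
    ∃ w : LaurentSeries k', y = algebraMap (LaurentSeries k') M w := by
  obtain ⟨w, hw0, hw⟩ := ls_root hℓ x hx ho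
  have hw0' : algebraMap (LaurentSeries k') M w ≠ 0 := by simpa using hw0
  have h1 : (y / algebraMap (LaurentSeries k') M w) ^ ℓ = 1 := by
    rw [div_pow, hy, ← map_pow, hw, div_self]
    simpa using hx
  have : NeZero ℓ := ⟨hp.ne'⟩
  obtain ⟨i, -, hi⟩ := (hζ.map_of_injective
    (algebraMap (LaurentSeries k') M).injective).eq_pow_of_pow_eq_one h1
  refine ⟨ζ ^ i * w, ?_⟩
  rw [map_mul, map_pow, hi, div_mul_cancel₀ _ hw0']

/-- a character of `Gal(M/L)` of order `ℓ` is a power of the character of the `ℓ`-th root of the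
variable -/
theorem kum_T {ℓ : ℕ} (hp : ℓ.Prime) (hℓ : (ℓ : k') ≠ 0) {M : Type} [Field M]
    [Algebra (LaurentSeries k') M] [IsGalois (LaurentSeries k') M]
    {ζ : LaurentSeries k'} (hζ : IsPrimitiveRoot ζ ℓ) {T1 : M}
    (hT : T1 ^ ℓ = algebraMap (LaurentSeries k') M (HahnSeries.single (1 : ℤ) 1))
    (ψ : (M ≃ₐ[LaurentSeries k'] M) → M)
    (hψ : ∀ σ, ∃ k : ℕ, ψ σ = algebraMap (LaurentSeries k') M ζ ^ k)
    (hmul : ∀ σ τ, ψ (σ * τ) = ψ σ * ψ τ) (hc : IsLocallyConstant ψ) :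
    ∃ o : ℤ, ∀ σ, ψ σ = (σ T1 / T1) ^ o := by
  have hinj := (algebraMap (LaurentSeries k') M).injective
  have hζ' := hζ.map_of_injective hinj
  have hℓL : (ℓ : LaurentSeries k') ≠ 0 := by
    rw [← map_natCast (HahnSeries.C : k' →+* LaurentSeries k')]
    exact (_root_.map_ne_zero _).2 hℓ
  have hℓM : (ℓ : M) ≠ 0 := by
    rw [← map_natCast (algebraMap (LaurentSeries k') M)]
    exact (_root_.map_ne_zero _).2 hℓL
  have hT0 : T1 ≠ 0 := by
    rintro rfl
    rw [zero_pow hp.ne_zero] at hT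
    have h0 := hT.symm
    rw [map_eq_zero] at h0
    exact one_ne_zero (HahnSeries.single_eq_zero_iff.1 h0)
  obtain ⟨g, hg0, hg⟩ := Pool.Agent.Y713.SE.kummer hp hℓM hζ' ψ hψ hmul hc
  have hψℓ : ∀ σ, ψ σ ^ ℓ = 1 := fun σ => by
    obtain ⟨k, hk⟩ := hψ σ
    rw [hk, ← pow_mul, mul_comm, pow_mul, hζ'.pow_eq_one, one_pow]
  obtain ⟨x, hx⟩ : ∃ x, algebraMap (LaurentSeries k') M x = g ^ ℓ := by
    refine (InfiniteGalois.mem_range_algebraMap_iff_fixed _).2 fun σ => ?_
    rw [map_pow, hg, mul_pow, hψℓ, one_mul]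
  have hx0 : x ≠ 0 := by
    rintro rfl
    rw [map_zero] at hx
    exact pow_ne_zero _ hg0 hx.symm
  set o := x.order with ho
  have hs0 : (HahnSeries.single o (1 : k') : LaurentSeries k') ≠ 0 := by simp
  have hs1 : (HahnSeries.single (-o) (1 : k') : LaurentSeries k') ≠ 0 := by simp
  have hu0 : x * HahnSeries.single (-o) (1 : k') ≠ 0 := mul_ne_zero hx0 hs1
  have huo : (x * HahnSeries.single (-o) (1 : k')).order = 0 := by
    rw [HahnSeries.order_mul hx0 hs1, HahnSeries.order_single one_ne_zero, ← ho, add_neg_cancel]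
  have hy : (g * T1 ^ (-o)) ^ ℓ = algebraMap (LaurentSeries k') M
      (x * HahnSeries.single (-o) (1 : k')) := by
    rw [mul_pow, ← hx, map_mul]
    congr 1
    rw [← zpow_natCast, ← zpow_mul, mul_comm, zpow_mul, zpow_natCast, hT, ← map_zpow₀, zpow_single]
  obtain ⟨w, hw⟩ := root_in hℓ hζ hp.pos hu0 (by rw [huo]; simp) hy
  refine ⟨o, fun σ => ?_⟩
  have h1 := congrArg σ hw
  rw [AlgEquiv.commutes, map_mul, map_zpow₀, hg, ← hw] at h1
  have hσT : σ T1 ≠ 0 := (_root_.map_ne_zero _).2 hT0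
  have h2 : ψ σ * (σ T1) ^ (-o) = T1 ^ (-o) := by
    apply mul_left_cancel₀ hg0
    rw [← h1]
    ring
  rw [div_zpow, eq_div_iff (zpow_ne_zero _ hT0)]
  rw [zpow_neg, zpow_neg] at h2
  have h3 : (σ T1) ^ o ≠ 0 := zpow_ne_zero _ hσT
  have h4 : T1 ^ o ≠ 0 := zpow_ne_zero _ hT0
  field_simp at h2
  rw [← h2]

/-- conjugation does not change the action on the `ℓ`-th root of the variable -/
theorem conj_T {ℓ : ℕ} (hp : ℓ.Prime) {M : Type} [Field M]
    [Algebra (LaurentSeries k') M] {ζ : LaurentSeries k'} (hζ : IsPrimitiveRoot ζ ℓ) {T1 : M}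
    (hT : T1 ^ ℓ = algebraMap (LaurentSeries k') M (HahnSeries.single (1 : ℤ) 1))
    {S : M ≃+* M} (hST : S (algebraMap (LaurentSeries k') M (HahnSeries.single (1 : ℤ) 1)) =
      algebraMap (LaurentSeries k') M (HahnSeries.single (1 : ℤ) 1))
    (hSζ : S (algebraMap (LaurentSeries k') M ζ) = algebraMap (LaurentSeries k') M ζ)
    {σ σ' : M ≃ₐ[LaurentSeries k'] M} (h : ∀ x, S (σ' x) = σ (S x)) :
    σ' T1 / T1 = σ T1 / T1 := by
  have hinj := (algebraMap (LaurentSeries k') M).injective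
  have hζ' := hζ.map_of_injective hinj
  have hT0 : T1 ≠ 0 := by
    rintro rfl
    rw [zero_pow hp.ne_zero] at hT
    have h0 := hT.symm
    rw [map_eq_zero] at h0
    exact one_ne_zero (HahnSeries.single_eq_zero_iff.1 h0)
  have : NeZero ℓ := ⟨hp.ne_zero⟩
  have key : ∀ φ : M →+* M, φ (algebraMap (LaurentSeries k') M (HahnSeries.single (1 : ℤ) 1)) =
      algebraMap (LaurentSeries k') M (HahnSeries.single (1 : ℤ) 1) →
      ∃ i : ℕ, φ T1 = algebraMap (LaurentSeries k') M ζ ^ i * T1 := by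
    intro φ hφ
    have h1 : (φ T1 / T1) ^ ℓ = 1 := by
      rw [div_pow, ← map_pow, hT, hφ, div_self]
      rw [← hT]
      exact pow_ne_zero _ hT0
    obtain ⟨i, -, hi⟩ := hζ'.eq_pow_of_pow_eq_one h1
    exact ⟨i, by rw [hi, div_mul_cancel₀ _ hT0]⟩
  obtain ⟨a, ha⟩ := key (S : M →+* M) hST
  obtain ⟨b, hb⟩ := key (σ : M →+* M) (σ.commutes _)
  obtain ⟨c, hc⟩ := key (σ' : M →+* M) (σ'.commutes _)
  have ha' : S T1 = algebraMap (LaurentSeries k') M ζ ^ a * T1 := ha
  have hb' : σ T1 = algebraMap (LaurentSeries k') M ζ ^ b * T1 := hb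
  have hc' : σ' T1 = algebraMap (LaurentSeries k') M ζ ^ c * T1 := hc
  have h1 := h T1
  rw [ha', hc', map_mul, map_mul, map_pow, map_pow, hSζ, AlgEquiv.commutes, ha', hb'] at h1
  rw [hb', hc', mul_div_assoc, mul_div_assoc, div_self hT0, mul_one, mul_one]
  have hz : algebraMap (LaurentSeries k') M ζ ^ a ≠ 0 :=
    pow_ne_zero _ (hζ'.ne_zero hp.ne_zero)
  have h2 : algebraMap (LaurentSeries k') M ζ ^ c * (algebraMap (LaurentSeries k') M ζ ^ a * T1) =
      algebraMap (LaurentSeries k') M ζ ^ b * (algebraMap (LaurentSeries k') M ζ ^ a * T1) := by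
    rw [h1]; ring
  exact mul_right_cancel₀ (mul_ne_zero hz hT0) h2

end lau

end Pool.Agent.Y237.NZ
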