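import Pool.Agent.Y164.NZ.StmT
import Pool.Agent.Y237.NZ.Gal

/-!
# Project NZ (helper164): local automorphisms act on the first layer by unramified classes

`t : S_RRT → S_LOCA`.
-/

set_option autoImplicit false
set_option linter.all false

open Polynomial IsDedekindDomain
open scoped Classical

namespace Pool.Agent.Y237.NZ

open Pool.Agent.Y713.SE
open Pool.Agent.Y713.SE.Dat
open Pool.Agent.TH115.GD (pl Comp Sep)
open Pool.Agent.Y164.SZ (Tm)
open Pool.Agent.Y164.NZ

section expansion

variable {k' F Ω : Type} [Field k'] [Field F] [Algebra k'[X] F] [IsFractionRing k'[X] F]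
  [Field Ω] [Algebra F Ω] (θ : k')

theorem exo (θ : k') {p : k'[X]} (hp : p ≠ 0) :
    ex θ p ≠ 0 ∧ (ex θ p).order = (rootMultiplicity θ p : ℤ) := ex_order θ hp

theorem ex_inj : Function.Injective (ex θ) := by
  rw [injective_iff_map_eq_zero]
  intro p hp
  by_contra h
  exact (exo θ h).1 hp

/-- the expansion of a rational function -/
noncomputable def EE : F →+* LaurentSeries k' := IsFractionRing.lift (ex_inj θ)

theorem EE_poly (p : k'[X]) : EE (F := F) θ (algebraMap k'[X] F p) = ex θ p :=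
  IsFractionRing.lift_algebraMap _ _

variable {θ}

theorem EE_ι (ld : LD F Ω θ) (x : F) : ld.ι (algebraMap F Ω x) =
    algebraMap (LaurentSeries k') (AlgebraicClosure (LaurentSeries k')) (EE θ x) := by
  obtain ⟨n, d, hd, rfl⟩ := IsFractionRing.div_surjective (A := k'[X]) x
  rw [_root_.map_div₀, _root_.map_div₀, ld.hι, ld.hι, _root_.map_div₀, EE_poly, EE_poly,
    _root_.map_div₀]

theorem EE_order (ℓ : ℕ) {x : F} (hx : x ≠ 0) :
    (((EE θ x).order : ℤ) : ZMod ℓ) = - ov ℓ (pl θ) x := by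
  obtain ⟨n, d, hd, rfl⟩ := IsFractionRing.div_surjective (A := k'[X]) x
  have hd0 : d ≠ 0 := nonZeroDivisors.ne_zero hd
  have hn0 : n ≠ 0 := by
    rintro rfl
    simp at hx
  rw [ov_frac ℓ θ hn0 hd0]
  have h1 : EE θ (algebraMap k'[X] F n / algebraMap k'[X] F d) * ex θ d = ex θ n := by
    rw [_root_.map_div₀, EE_poly, EE_poly, div_mul_cancel₀ _ (exo θ hd0).1]
  have h2 : EE θ (algebraMap k'[X] F n / algebraMap k'[X] F d) ≠ 0 := (_root_.map_ne_zero _).2 hx
  have h3 := congrArg HahnSeries.order h1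
  rw [HahnSeries.order_mul h2 (exo θ hd0).1] at h3
  have h4 : (ex θ d).order = (rootMultiplicity θ d : ℤ) := (exo θ hd0).2
  have h5 : (ex θ n).order = (rootMultiplicity θ n : ℤ) := (exo θ hn0).2
  rw [h4, h5] at h3
  have h6 : (EE θ (algebraMap k'[X] F n / algebraMap k'[X] F d)).order =
      (rootMultiplicity θ n : ℤ) - (rootMultiplicity θ d : ℤ) := by linarith
  rw [h6]
  push_cast
  ring

/-- restriction of the automorphisms over the field of Laurent series -/
theorem restr [IsGalois F Ω] (ld : LD F Ω θ)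
    (t : AlgebraicClosure (LaurentSeries k') ≃ₐ[LaurentSeries k']
      AlgebraicClosure (LaurentSeries k')) :
    ∃ σ : Ω ≃ₐ[F] Ω, ∀ x, t (ld.ι x) = ld.ι (σ x) := by
  letI : Algebra F (AlgebraicClosure (LaurentSeries k')) :=
    (ld.ι.comp (algebraMap F Ω)).toAlgebra
  obtain ⟨σ, hσ⟩ := exists_restr (K := F) (L := Ω) (Ω := AlgebraicClosure (LaurentSeries k'))
    ({ ld.ι with commutes' := fun _ => rfl } : Ω →ₐ[F] AlgebraicClosure (LaurentSeries k'))
    (AlgEquiv.ofRingEquiv (f := (t : AlgebraicClosure (LaurentSeries k') ≃+*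
      AlgebraicClosure (LaurentSeries k'))) (fun x => by
        show t (ld.ι (algebraMap F Ω x)) = ld.ι (algebraMap F Ω x)
        rw [EE_ι, AlgEquiv.commutes]))
  exact ⟨σ, fun x => hσ x⟩

/-- conjugation of an automorphism over the field of Laurent series -/
theorem conjg {L M : Type} [Field L] [Field M] [Algebra L M] (S : M ≃+* M)
    (hS : ∀ x : L, ∃ y : L, S (algebraMap L M x) = algebraMap L M y) (t : M ≃ₐ[L] M) :
    ∃ t' : M ≃ₐ[L] M, ∀ x, S (t' x) = t (S x) := by
  refine ⟨AlgEquiv.ofRingEquiv (f := (S.trans (t : M ≃+* M)).trans S.symm) fun x => ?_,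
    fun x => ?_⟩
  · obtain ⟨y, hy⟩ := hS x
    show S.symm (t (S (algebraMap L M x))) = algebraMap L M x
    rw [hy, AlgEquiv.commutes, ← hy, S.symm_apply_apply]
  · exact S.apply_symm_apply _

end expansion

section main

variable {ℓ n : ℕ} {k' K F Ω : Type} [Field k'] [IsAlgClosed k'] [CharZero k'] [Field K] [Field F]
  [Algebra k'[X] F] [IsFractionRing k'[X] F] [Algebra K F] [Field Ω] [Algebra F Ω] [Algebra K Ω]
  [IsScalarTower K F Ω] [IsGalois F Ω] (D : Dat ℓ n K) {θ : k'} (ld : LD F Ω θ)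

include D in
/-- elements of `Ω` with an `ℓ`-th power in `F` of order divisible by `ℓ` are in `L` -/
theorem root_L {y : Ω} {d : F} (hd : d ≠ 0) (hy : y ^ ℓ = algebraMap F Ω d)
    (ho : ov ℓ (pl θ) d = 0) : ∃ w : LaurentSeries k', ld.ι y =
      algebraMap (LaurentSeries k') (AlgebraicClosure (LaurentSeries k')) w := by
  have hζ : IsPrimitiveRoot (EE θ (algebraMap K F D.ζ)) ℓ :=
    (D.hζ.map_of_injective (algebraMap K F).injective).map_of_injective
      (EE (F := F) θ).injective
  have hℓ : (ℓ : k') ≠ 0 := Nat.cast_ne_zero.2 D.hp.ne_zero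
  refine root_in hℓ hζ D.hp.pos (x := EE θ d) ((_root_.map_ne_zero _).2 hd) ?_ ?_
  · rw [EE_order ℓ hd, ho, neg_zero]
  · rw [← map_pow, hy, EE_ι]

/-- the Kummer generators and constant characters -/
theorem chi_const {χ : (Ω ≃ₐ[F] Ω) → Fin n → ℕ} (kd : D.KF χ) {σ : Ω ≃ₐ[F] Ω}
    (h : ∀ i j, σ (kd.θ i j) = kd.θ i j) : cl ((D.base Ω).PT (χ σ)) = 1 := by
  apply (D.base Ω).cl_PT_of_modEq
  intro i j
  have h1 := kd.hθ σ i j
  rw [h i j] at h1
  exact ((D.base Ω).ζ_modEq (mul_right_cancel₀ (kd.h0 i j) h1)).symm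

theorem fix_of_one {χ : (Ω ≃ₐ[F] Ω) → Fin n → ℕ} (kd : D.KF χ) {σ : Ω ≃ₐ[F] Ω}
    (h : cl ((D.base Ω).PT (χ σ)) = 1) (i j : Fin n) : σ (kd.θ i j) = kd.θ i j := by
  have h1 := kd.hθ σ i j
  have h0 : cl ((D.base Ω).PT (0 : Fin n → ℕ)) = 1 := by rw [cl_PT]; simp
  have h2 := (D.base Ω).PT_indep (h.trans h0.symm) i j
  simp only [Pi.zero_apply, add_zero] at h2
  rw [(D.base Ω).ζ_pow_of_modEq h2] at h1
  exact mul_left_cancel₀ (pow_ne_zero _ (D.base Ω).ζ_ne) h1

end main

theorem loca (hRRT : S_RRT) : S_LOCA := by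
  intro ℓ n k k' K F Ω _ _ _ _ _ _ _ _ _ _ _ _ _ _ _ _ _ _ _ _ hKF D hℓ2 θ ld s τ hloc hsθ z hz
    hz2 χ kd hχ hov A m hRel hA
  have c1 : CharZero k' := charZero_of_injective_algebraMap (algebraMap k k').injective
  have c2 : CharZero F := by
    have h1 : Function.Injective (algebraMap k'[X] F) := IsFractionRing.injective k'[X] F
    have h2 : Function.Injective ((algebraMap k'[X] F).comp (C : k' →+* k'[X])) :=
      h1.comp C_injective
    letI := ((algebraMap k'[X] F).comp (C : k' →+* k'[X])).toAlgebra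
    exact charZero_of_injective_algebraMap (R := k') (A := F) h2
  have c3 : CharZero Ω := charZero_of_injective_algebraMap (algebraMap F Ω).injective
  have c4 : IsSepClosed k' := IsSepClosure.sep_closed k
  have c5 : IsAlgClosed k' := inferInstance
  have c6 : CharZero (LaurentSeries k') :=
    charZero_of_injective_algebraMap (algebraMap k' (LaurentSeries k')).injective
  have c7 : IsGalois (LaurentSeries k') (AlgebraicClosure (LaurentSeries k')) := inferInstance
  have hp := D.hp
  have hℓ : (ℓ : k') ≠ 0 := Nat.cast_ne_zero.2 hp.ne_zero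
  obtain ⟨S, hS1, hS2⟩ := hloc
  -- the root of unity
  set ζL : LaurentSeries k' := EE θ (algebraMap K F D.ζ) with hζL
  have hζ : IsPrimitiveRoot ζL ℓ :=
    (D.hζ.map_of_injective (algebraMap K F).injective).map_of_injective
      (EE (F := F) θ).injective
  have hιζ : ld.ι (D.base Ω).ζ =
      algebraMap (LaurentSeries k') (AlgebraicClosure (LaurentSeries k')) ζL := by
    have h1 : (D.base Ω).ζ = algebraMap F Ω (algebraMap K F D.ζ) :=
      IsScalarTower.algebraMap_apply K F Ω D.ζ
    rw [h1, EE_ι]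
  have hSζ : S (algebraMap (LaurentSeries k') (AlgebraicClosure (LaurentSeries k')) ζL) =
      algebraMap (LaurentSeries k') (AlgebraicClosure (LaurentSeries k')) ζL := by
    rw [← hιζ, hS2]
    congr 1
    exact τ.commutes D.ζ
  -- the root of the variable
  obtain ⟨T1, hT⟩ := IsAlgClosed.exists_pow_nat_eq
    (algebraMap (LaurentSeries k') (AlgebraicClosure (LaurentSeries k'))
      (HahnSeries.single (1 : ℤ) 1)) hp.pos
  have hST : S (algebraMap (LaurentSeries k') (AlgebraicClosure (LaurentSeries k'))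
      (HahnSeries.single (1 : ℤ) 1)) =
      algebraMap (LaurentSeries k') (AlgebraicClosure (LaurentSeries k'))
        (HahnSeries.single (1 : ℤ) 1) := by
    apply hS1
    intro i
    by_cases hi : i = 1
    · subst hi
      simp
    · simp [HahnSeries.coeff_single_of_ne hi]
  have hSL : ∀ x : LaurentSeries k', ∃ y : LaurentSeries k',
      S (algebraMap (LaurentSeries k') (AlgebraicClosure (LaurentSeries k')) x) =
        algebraMap (LaurentSeries k') (AlgebraicClosure (LaurentSeries k')) y := fun x =>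
    ⟨HahnSeries.map x s, hS1 x (HahnSeries.map x s) fun i => rfl⟩
  -- restriction
  choose res hres using restr (F := F) (Ω := Ω) ld
  have hresm : ∀ t t', res (t * t') = res t * res t' := by
    intro t t'
    refine AlgEquiv.ext fun x => ld.ι.injective ?_
    rw [← hres, AlgEquiv.mul_apply, AlgEquiv.mul_apply, hres, hres]
  have hresc : ∀ t t', (∀ x, S (t' x) = t (S x)) → ∀ x, τ (res t' x) = res t (τ x) := by
    intro t t' h x
    apply ld.ι.injective
    rw [← hS2, ← hres, h, hS2, hres]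
  -- the first layer is trivial
  have hfix : ∀ t i j, res t (kd.θ i j) = kd.θ i j := by
    intro t i j
    obtain ⟨w, hw⟩ := root_L D ld (KF.d0 D kd i j) (kd.hd i j) (hov i j)
    apply ld.ι.injective
    rw [← hres, hw, AlgEquiv.commutes]
  have hz1 : ∀ t, ∃ y : Fin n → ℕ, z (res t) = cl ((D.base Ω).PT y) := by
    intro t
    have h1 := (hχ (res t)).trans (chi_const D kd (hfix t))
    rw [phi_apply] at h1
    have h2 : (D.base Ω).sC (z (res t)) = z (res t) := (div_eq_one.1 h1).symm
    obtain ⟨y, hy⟩ := (D.base Ω).phi_ker (p := 1) h2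
    exact ⟨y, by rw [hy, cl_PT]⟩
  choose y hy using hz1
  have hzm : ∀ t t', cl ((D.base Ω).PT (y (t * t'))) = cl ((D.base Ω).PT (y t + y t')) := by
    intro t t'
    rw [← hy, hresm, hz.2, hy t', D.mC_PT, hy t, cl_PT_add]
  have hlc : IsLocallyConstant (fun t => z (res t)) := lc_res ld.ι res hres hz.1
  -- conjugation
  have hconj : ∀ t t', (∀ x, S (t' x) = t (S x)) → z (res t') = z (res t) := by
    intro t t' htt
    rw [hy, hy, cl_PT_eq_iff]
    intro i j
    set ψ : (AlgebraicClosure (LaurentSeries k') ≃ₐ[LaurentSeries k']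
      AlgebraicClosure (LaurentSeries k')) → AlgebraicClosure (LaurentSeries k') :=
      fun t => ld.ι ((D.base Ω).ζ ^ (y t i + (ℓ - 1) * y t j)) with hψ
    have hℓ1 : ℓ - 1 + 1 = ℓ := Nat.sub_add_cancel hp.pos
    have key : ∀ a b c d : ℕ, a + d ≡ b + c [MOD ℓ] ↔
        (D.base Ω).ζ ^ (a + (ℓ - 1) * b) = (D.base Ω).ζ ^ (c + (ℓ - 1) * d) := by
      intro a b c d
      have e : ∀ u v : ℕ, (D.base Ω).ζ ^ u = (D.base Ω).ζ ^ v ↔ u ≡ v [MOD ℓ] :=
        fun u v => ⟨(D.base Ω).ζ_modEq, (D.base Ω).ζ_pow_of_modEq⟩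
      rw [e]
      have e1 : ∀ a b d : ℕ, (a + (ℓ - 1) * b) + (b + d) ≡ a + d [MOD ℓ] := by
        intro a b d
        have : (a + (ℓ - 1) * b) + (b + d) = (a + d) + ℓ * b := by
          nth_rewrite 2 [← hℓ1]; ring
        rw [this]
        simp [Nat.ModEq]
      have e2 : ∀ c d b : ℕ, (c + (ℓ - 1) * d) + (b + d) ≡ b + c [MOD ℓ] := by
        intro c d b
        have : (c + (ℓ - 1) * d) + (b + d) = (b + c) + ℓ * d := by
          nth_rewrite 2 [← hℓ1]; ring
        rw [this]
        simp [Nat.ModEq]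
      constructor
      · intro h
        exact Nat.ModEq.add_right_cancel' (b + d) (((e1 a b d).trans h).trans (e2 c d b).symm)
      · intro h
        exact ((e1 a b d).symm.trans (h.add_right _)).trans (e2 c d b)
    obtain ⟨o, ho⟩ := kum_T hp hℓ hζ hT ψ (fun t => ⟨_, by rw [hψ]; simp only; rw [map_pow, hιζ]⟩)
      (fun t t' => by
        rw [hψ]
        simp only
        rw [← map_mul, ← pow_add]
        congr 1
        have h1 := (cl_PT_eq_iff _).1 (hzm t t') i j
        simp only [Pi.add_apply] at h1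
        have h2 : y (t * t') i + (y t j + y t' j) ≡ y (t * t') j + (y t i + y t' i) [MOD ℓ] := h1
        rw [(key _ _ _ _).1 h2]
        congr 1
        ring)
      (locConst_congr hlc fun t t' h => by
        rw [hψ]
        simp only
        congr 1
        rw [hy, hy] at h
        have h1 := (cl_PT_eq_iff _).1 h i j
        exact (key _ _ _ _).1 h1)
    have h1 : ψ t' = ψ t := by
      rw [ho, ho, conj_T hp hζ hT hST hSζ htt]
    have h2 := ld.ι.injective h1
    exact (key _ _ _ _).2 h2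
  -- the action on `A`
  have hAfix : ∀ t, D.mC (rs K (res t)) A = A := by
    intro t
    obtain ⟨t', ht'⟩ := conjg S hSL t
    have h1 := hRel (res t) (res t') (hresc t t' ht')
    rw [hconj t t' ht', hy, D.mC_PT] at h1
    have h2 := (mul_eq_left (a := cl ((D.base Ω).PT (y t)))).1 h1.symm
    exact div_eq_one.1 h2
  rw [phi_apply] at hA
  have hA' : cl ((D.base Ω).PT m) * (D.base Ω).sC A = A := by
    rw [← hA, div_mul_cancel]
  obtain ⟨χ2, hχ2⟩ := D.exists_chi (F := F) (Ω := Ω) (p := 1) hA'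
  have hcoc : D.CocF (fun σ : Ω ≃ₐ[F] Ω => cl ((D.base Ω).PT (χ2 σ))) := by
    have := D.cob_CocF (F := F) A
    have e : (fun σ : Ω ≃ₐ[F] Ω => cl ((D.base Ω).PT (χ2 σ))) =
        fun σ => D.mC (rs K σ) A / A := funext hχ2
    rw [e]
    exact this
  obtain ⟨kd2⟩ := D.exists_KF hcoc
  have hfix2 : ∀ t i j, res t (kd2.θ i j) = kd2.θ i j := by
    intro t i j
    refine fix_of_one D kd2 ?_ i j
    rw [hχ2, hAfix, div_self']
  have hov2 : ∀ i j, ov ℓ (pl θ) (kd2.d i j) = 0 := by
    intro i j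
    obtain ⟨w, hw⟩ := exists_F (F := LaurentSeries k')
      (Ω := AlgebraicClosure (LaurentSeries k')) (z := ld.ι (kd2.θ i j)) (fun t => by
        rw [hres, hfix2])
    have h1 : w ^ ℓ = EE θ (kd2.d i j) := by
      apply (algebraMap (LaurentSeries k') (AlgebraicClosure (LaurentSeries k'))).injective
      rw [map_pow, hw, ← map_pow, kd2.hd, EE_ι]
    have h2 := EE_order (k' := k') (θ := θ) ℓ (KF.d0 D kd2 i j)
    rw [← h1, HahnSeries.order_pow] at h2
    simp only [nsmul_eq_mul, Int.cast_mul, Int.cast_natCast, CharP.cast_eq_zero, zero_mul] at h2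
    exact neg_eq_zero.1 h2.symm
  intro i j
  obtain ⟨x, hx0, hx⟩ := hRRT ℓ n K F Ω D hℓ2 χ2 kd2 m A hA' hχ2 i j
  by_cases hTi : algebraMap K F (Tm D m i) = 0
  · rw [hTi, mul_zero] at hx
    have := (mul_eq_zero.1 hx.symm).resolve_left (pow_ne_zero _ hx0)
    rw [hTi, this]
  · have hTj : algebraMap K F (Tm D m j) ≠ 0 := by
      intro h
      rw [h, mul_zero] at hx
      exact mul_ne_zero (KF.d0 D kd2 i j) hTi hx
    have h1 := congrArg (ov ℓ (pl θ)) hx
    rw [ov_mul (KF.d0 D kd2 i j) hTi, ov_mul (pow_ne_zero _ hx0) hTj, ov_powl, hov2, zero_add,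
      zero_add] at h1
    exact h1

theorem t (hRRT : S_RRT) : S_LOCA := loca hRRT

end Pool.Agent.Y237.NZ
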