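import Mathlib

/-!
# Project NZ (helper164): `ℓ`-th powers of Laurent series, the expansion of a polynomial
-/

set_option autoImplicit false

open Polynomial

namespace Pool.Agent.Y237.NZ

variable {k' : Type} [Field k']

/-- a power series with nonzero constant coefficient is an `ℓ`-th power -/
theorem ps_root [IsAlgClosed k'] {ℓ : ℕ} (hℓ : (ℓ : k') ≠ 0) (f : PowerSeries k')
    (hf : PowerSeries.constantCoeff f ≠ 0) : ∃ g : PowerSeries k', g ^ ℓ = f := by
  have hℓ0 : 0 < ℓ := Nat.pos_of_ne_zero (by rintro rfl; simp at hℓ)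
  obtain ⟨c, hc⟩ := IsAlgClosed.exists_pow_nat_eq (PowerSeries.constantCoeff f) hℓ0
  have hc0 : c ≠ 0 := by
    rintro rfl
    rw [zero_pow hℓ0.ne'] at hc
    exact hf hc.symm
  have hmem : ∀ g : PowerSeries k', g ∈ Ideal.span {(PowerSeries.X : PowerSeries k')} ↔
      PowerSeries.constantCoeff g = 0 := fun g => by
    rw [Ideal.mem_span_singleton, PowerSeries.X_dvd_iff]
  obtain ⟨a, ha, -⟩ := HenselianRing.is_henselian (R := PowerSeries k')
    (I := Ideal.span {(PowerSeries.X : PowerSeries k')})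
    (X ^ ℓ - C f) (monic_X_pow_sub_C f hℓ0.ne') (PowerSeries.C c) (by
      rw [hmem]
      simp [hc]) (by
      apply IsUnit.map
      rw [PowerSeries.isUnit_iff_constantCoeff]
      simp only [derivative_sub, derivative_X_pow, derivative_C, sub_zero, eval_mul, eval_pow,
        eval_X, map_mul, map_pow, PowerSeries.constantCoeff_C]
      rw [isUnit_iff_ne_zero]
      refine mul_ne_zero ?_ (pow_ne_zero _ hc0)
      simpa using hℓ)
  refine ⟨a, ?_⟩
  rw [IsRoot.def, eval_sub, eval_pow, eval_X, eval_C, sub_eq_zero] at ha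
  exact ha

/-- a Laurent series whose order is divisible by `ℓ` is an `ℓ`-th power -/
theorem ls_root [IsAlgClosed k'] {ℓ : ℕ} (hℓ : (ℓ : k') ≠ 0) (x : LaurentSeries k') (hx : x ≠ 0)
    (h : ((x.order : ℤ) : ZMod ℓ) = 0) : ∃ w : LaurentSeries k', w ≠ 0 ∧ w ^ ℓ = x := by
  rw [ZMod.intCast_zmod_eq_zero_iff_dvd] at h
  obtain ⟨a, ha⟩ := h
  have hu : PowerSeries.constantCoeff x.powerSeriesPart ≠ 0 := by
    rw [← PowerSeries.coeff_zero_eq_constantCoeff_apply, LaurentSeries.powerSeriesPart_coeff]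
    simpa using (HahnSeries.coeff_order_eq_zero.not.2 hx)
  obtain ⟨g, hg⟩ := ps_root hℓ _ hu
  have h1 := LaurentSeries.single_order_mul_powerSeriesPart x
  have h2 : (HahnSeries.single a (1 : k') * (HahnSeries.ofPowerSeries ℤ k' g)) ^ ℓ = x := by
    rw [mul_pow, HahnSeries.single_pow, ← map_pow, hg, one_pow, nsmul_eq_mul, ← ha]
    exact h1
  refine ⟨_, fun h0 => hx ?_, h2⟩
  rw [← h2, h0, zero_pow]
  rintro rfl
  simp at hℓ

/-- the expansion of a polynomial at `θ` as a power series -/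
noncomputable def pe (θ : k') : k'[X] →+* PowerSeries k' :=
  eval₂RingHom PowerSeries.C (PowerSeries.C θ + PowerSeries.X)

theorem pe_const (θ : k') (p : k'[X]) : PowerSeries.constantCoeff (pe θ p) = p.eval θ := by
  unfold pe
  rw [coe_eval₂RingHom, hom_eval₂]
  simp [eval₂_eq_eval_map]

/-- the expansion of a polynomial at `θ` -/
noncomputable def ex' (θ : k') : k'[X] →+* LaurentSeries k' :=
  eval₂RingHom (HahnSeries.C) (HahnSeries.C θ + HahnSeries.single 1 1)

theorem ex_eq (θ : k') (p : k'[X]) : ex' θ p = HahnSeries.ofPowerSeries ℤ k' (pe θ p) := by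
  have : ex' θ = (HahnSeries.ofPowerSeries ℤ k').comp (pe θ) := by
    refine Polynomial.ringHom_ext (fun a => ?_) ?_
    · simp [ex', pe, HahnSeries.ofPowerSeries_C]
    · simp [ex', pe, HahnSeries.ofPowerSeries_C, HahnSeries.ofPowerSeries_X]
  rw [this]; rfl

theorem ex_ne (θ : k') {p : k'[X]} (hp : p.eval θ ≠ 0) : ex' θ p ≠ 0 ∧ (ex' θ p).order = 0 := by
  have h0 : (ex' θ p).coeff 0 ≠ 0 := by
    have h1 := HahnSeries.ofPowerSeries_apply_coeff (Γ := ℤ) (pe θ p) 0
    rw [ex_eq]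
    rw [Nat.cast_zero] at h1
    rw [h1, PowerSeries.coeff_zero_eq_constantCoeff_apply, pe_const]
    exact hp
  have hne : ex' θ p ≠ 0 := fun h => h0 (by rw [h]; rfl)
  refine ⟨hne, le_antisymm (HahnSeries.order_le_of_coeff_ne_zero h0) ?_⟩
  by_contra hlt
  push Not at hlt
  have h2 := HahnSeries.coeff_order_eq_zero.not.2 hne
  rw [ex_eq] at h2 hlt
  obtain ⟨m, hm⟩ : ∃ m : ℤ, (HahnSeries.ofPowerSeries ℤ k' (pe θ p)).order = m := ⟨_, rfl⟩
  rw [hm] at h2 hlt
  apply h2
  rw [HahnSeries.ofPowerSeries_apply]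
  refine HahnSeries.embDomain_of_notMem_range ?_
  rintro ⟨j, hj⟩
  have : (j : ℤ) = m := hj
  omega

theorem ex_X (θ : k') : ex' θ (X - C θ) = HahnSeries.single 1 1 := by
  simp [ex']

theorem ex_order (θ : k') {p : k'[X]} (hp : p ≠ 0) :
    ex' θ p ≠ 0 ∧ (ex' θ p).order = (rootMultiplicity θ p : ℤ) := by
  obtain ⟨q, hq, hd⟩ := exists_eq_pow_rootMultiplicity_mul_and_not_dvd p hp θ
  have hq0 : q.eval θ ≠ 0 := fun h => hd (dvd_iff_isRoot.2 h)
  obtain ⟨h1, h2⟩ := ex_ne θ hq0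
  have h3 : ex' θ p = HahnSeries.single (rootMultiplicity θ p : ℤ) 1 * ex' θ q := by
    conv_lhs => rw [hq]
    rw [map_mul, map_pow, ex_X, HahnSeries.single_pow]
    simp
  have h4 : (HahnSeries.single (rootMultiplicity θ p : ℤ) (1 : k')) ≠ 0 := by simp
  rw [h3]
  refine ⟨mul_ne_zero h4 h1, ?_⟩
  rw [HahnSeries.order_mul h4 h1, h2, HahnSeries.order_single one_ne_zero, add_zero]

end Pool.Agent.Y237.NZ
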